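import Pool.Agent.H336R5.PS.Defs

set_option autoImplicit false

/-! Task C of project PSUM (helper779): the mean of `G log (1 + G)`. -/

namespace Pool.Agent.H779R5.PS

open Filter Topology MeasureTheory Pool.Agent.H336R5.PS

/-- an exponential -/
noncomputable def ee (l : ℝ) (t : ℝ) : ℂ := Complex.exp (Complex.I * ((t * l : ℝ) : ℂ))

/-- the exponentials with positive frequency -/
def SS : Set (ℝ → ℂ) := {h | ∃ l : ℝ, 0 < l ∧ h = ee l}

/-- their span -/
noncomputable def V : Submodule ℂ (ℝ → ℂ) := Submodule.span ℂ SS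

theorem ee_mul (l m : ℝ) : ee l * ee m = ee (l + m) := by
  funext t
  simp only [Pi.mul_apply, ee]
  rw [← Complex.exp_add]
  congr 1
  push_cast
  ring

theorem mul_mem {h k : ℝ → ℂ} (hh : h ∈ V) (hk : k ∈ V) : h * k ∈ V := by
  have h1 : h * k ∈ V * V := Submodule.mul_mem_mul hh hk
  unfold V at h1
  rw [Submodule.span_mul_span] at h1
  apply Submodule.span_mono _ h1
  rintro _ ⟨a, ⟨l, hl, rfl⟩, b, ⟨m, hm, rfl⟩, rfl⟩
  exact ⟨l + m, by positivity, ee_mul l m⟩

theorem cont_ee (l : ℝ) : Continuous (ee l) := by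
  unfold ee
  fun_prop

theorem mean_ee {l : ℝ} (hl : 0 < l) : HasMean (ee l) 0 := by
  unfold HasMean
  have hc : Complex.I * (l : ℂ) ≠ 0 :=
    mul_ne_zero Complex.I_ne_zero (by exact_mod_cast hl.ne')
  have hint : ∀ T : ℝ, ∫ t in (-T)..T, ee l t =
      (Complex.exp (Complex.I * (l : ℂ) * (T : ℂ)) -
        Complex.exp (Complex.I * (l : ℂ) * ((-T : ℝ) : ℂ))) / (Complex.I * (l : ℂ)) := by
    intro T
    rw [← integral_exp_mul_complex hc]
    apply intervalIntegral.integral_congr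
    intro t _
    show ee l t = _
    unfold ee
    congr 1
    push_cast
    ring
  have hexp : ∀ T : ℝ, ‖Complex.exp (Complex.I * (l : ℂ) * (T : ℂ))‖ = 1 := by
    intro T
    have e1 : Complex.I * (l : ℂ) * (T : ℂ) = ((l * T : ℝ) : ℂ) * Complex.I := by
      push_cast
      ring
    rw [e1, Complex.norm_exp_ofReal_mul_I]
  have hlim : Tendsto (fun T : ℝ => (1 / l) * T⁻¹) atTop (𝓝 0) := by
    have := tendsto_inv_atTop_zero (𝕜 := ℝ)
    have h2 := this.const_mul (1 / l)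
    rwa [mul_zero] at h2
  apply squeeze_zero_norm' _ hlim
  filter_upwards [eventually_gt_atTop 0] with T hT
  rw [hint T, norm_mul]
  have h1 : ‖(1 / (2 * T) : ℂ)‖ = 1 / (2 * T) := by
    rw [norm_div, norm_one, norm_mul, Complex.norm_ofNat, Complex.norm_real, Real.norm_eq_abs,
      abs_of_pos hT]
  have h2 : ‖Complex.I * (l : ℂ)‖ = l := by
    rw [norm_mul, Complex.norm_I, one_mul, Complex.norm_real, Real.norm_eq_abs, abs_of_pos hl]
  have h3 : ‖Complex.exp (Complex.I * (l : ℂ) * (T : ℂ)) -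
        Complex.exp (Complex.I * (l : ℂ) * ((-T : ℝ) : ℂ))‖ ≤ 2 := by
    refine (norm_sub_le _ _).trans ?_
    rw [hexp T, hexp (-T)]
    norm_num
  rw [h1, norm_div, h2]
  calc 1 / (2 * T) * (‖Complex.exp (Complex.I * (l : ℂ) * (T : ℂ)) -
        Complex.exp (Complex.I * (l : ℂ) * ((-T : ℝ) : ℂ))‖ / l) ≤ 1 / (2 * T) * (2 / l) := by
        gcongr
    _ = 1 / l * T⁻¹ := by
        field_simp

theorem HasMean.add' {g h : ℝ → ℂ} {a b : ℂ} (hg : Continuous g) (hh : Continuous h)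
    (ha : HasMean g a) (hb : HasMean h b) : HasMean (g + h) (a + b) := by
  unfold HasMean at ha hb ⊢
  refine (ha.add hb).congr ?_
  intro T
  have := intervalIntegral.integral_add (μ := volume) (hg.intervalIntegrable (-T) T)
    (hh.intervalIntegrable (-T) T)
  simp only [Pi.add_apply]
  rw [this]
  ring

theorem HasMean.smul' {g : ℝ → ℂ} {a : ℂ} (c : ℂ) (ha : HasMean g a) :
    HasMean (c • g) (c * a) := by
  unfold HasMean at ha ⊢
  refine (ha.const_mul c).congr ?_
  intro T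
  simp only [Pi.smul_apply, smul_eq_mul]
  rw [intervalIntegral.integral_const_mul]
  ring

theorem mean_const (c : ℂ) : HasMean (fun _ => c) c := by
  unfold HasMean
  apply tendsto_const_nhds.congr'
  filter_upwards [eventually_gt_atTop 0] with T hT
  rw [intervalIntegral.integral_const]
  have : (T : ℂ) ≠ 0 := by exact_mod_cast hT.ne'
  rw [Complex.real_smul]
  push_cast
  field_simp
  ring

theorem V_mean {h : ℝ → ℂ} (hh : h ∈ V) : Continuous h ∧ HasMean h 0 := by
  unfold V at hh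
  induction hh using Submodule.span_induction with
  | mem x hx =>
    obtain ⟨l, hl, rfl⟩ := hx
    exact ⟨cont_ee l, mean_ee hl⟩
  | zero =>
    exact ⟨continuous_const, mean_const 0⟩
  | add x y _ _ hx hy =>
    refine ⟨hx.1.add hy.1, ?_⟩
    have := HasMean.add' hx.1 hy.1 hx.2 hy.2
    rwa [add_zero] at this
  | smul a x _ hx =>
    refine ⟨hx.1.const_smul a, ?_⟩
    have := HasMean.smul' a hx.2
    rwa [mul_zero] at this

/-- polynomials in `G` -/
theorem poly_mem {G : ℝ → ℂ} (hG : (G - fun _ => 1) ∈ V) (Q : Polynomial ℂ) :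
    ((fun t => Q.eval (G t)) - fun _ => Q.eval 1) ∈ V := by
  have hpow : ∀ k : ℕ, ((fun t => G t ^ k) - fun _ => (1 : ℂ)) ∈ V := by
    intro k
    induction k with
    | zero =>
      have : ((fun t => G t ^ 0) - fun _ => (1 : ℂ)) = 0 := by
        funext t
        simp
      rw [this]
      exact V.zero_mem
    | succ k ih =>
      have : ((fun t => G t ^ (k + 1)) - fun _ => (1 : ℂ)) =
          ((fun t => G t ^ k) - fun _ => (1 : ℂ)) * (G - fun _ => 1) +
            (((fun t => G t ^ k) - fun _ => (1 : ℂ)) + (G - fun _ => 1)) := by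
        funext t
        simp only [Pi.sub_apply, Pi.add_apply, Pi.mul_apply]
        ring
      rw [this]
      exact V.add_mem (mul_mem ih hG) (V.add_mem ih hG)
  induction Q using Polynomial.induction_on' with
  | add p q hp hq =>
    have : ((fun t => (p + q).eval (G t)) - fun _ => (p + q).eval 1) =
        ((fun t => p.eval (G t)) - fun _ => p.eval 1) +
          ((fun t => q.eval (G t)) - fun _ => q.eval 1) := by
      funext t
      simp only [Pi.sub_apply, Pi.add_apply, Polynomial.eval_add]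
      ring
    rw [this]
    exact V.add_mem hp hq
  | monomial n a =>
    have : ((fun t => (Polynomial.monomial n a).eval (G t)) -
        fun _ => (Polynomial.monomial n a).eval 1) = a • ((fun t => G t ^ n) - fun _ => (1 : ℂ)) := by
      funext t
      simp only [Pi.sub_apply, Pi.smul_apply, Polynomial.eval_monomial, smul_eq_mul, one_pow]
      ring
    rw [this]
    exact V.smul_mem a (hpow n)

theorem poly_mean {G : ℝ → ℂ} (hG : (G - fun _ => 1) ∈ V) (Q : Polynomial ℂ) :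
    Continuous (fun t => Q.eval (G t)) ∧ HasMean (fun t => Q.eval (G t)) (Q.eval 1) := by
  obtain ⟨h1, h2⟩ := V_mean (poly_mem hG Q)
  have h3 := HasMean.add' h1 continuous_const h2 (mean_const (Q.eval 1))
  have e : ((fun t => Q.eval (G t)) - fun _ => Q.eval 1) + (fun _ => Q.eval 1) =
      fun t => Q.eval (G t) := by
    funext t
    simp
  rw [e, zero_add] at h3
  refine ⟨?_, h3⟩
  have h4 := h1.add (continuous_const (y := Q.eval 1))
  convert h4 using 1
  funext t
  simp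

theorem mean_of_approx {F : ℝ → ℂ} {L : ℂ} (hF : Continuous F)
    (h : ∀ ε : ℝ, 0 < ε → ∃ (A : ℝ → ℂ) (a : ℂ), Continuous A ∧ HasMean A a ∧ ‖a - L‖ ≤ ε ∧
      ∀ t, ‖F t - A t‖ ≤ ε) : HasMean F L := by
  unfold HasMean
  rw [Metric.tendsto_atTop]
  intro ε hε
  obtain ⟨A, a, hA, hm, ha, hFA⟩ := h (ε / 4) (by linarith)
  unfold HasMean at hm
  rw [Metric.tendsto_atTop] at hm
  obtain ⟨N, hN⟩ := hm (ε / 4) (by linarith)
  refine ⟨max N 1, fun T hT => ?_⟩
  have hT1 : N ≤ T := (le_max_left _ _).trans hT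
  have hT2 : 1 ≤ T := (le_max_right _ _).trans hT
  have hT0 : 0 < T := by linarith
  have h1 := hN T hT1
  rw [dist_eq_norm] at h1 ⊢
  have h2 : ‖(1 / (2 * T) : ℂ) * ∫ t in (-T)..T, (F t - A t)‖ ≤ ε / 4 := by
    have h3 : ‖(1 / (2 * T) : ℂ)‖ = 1 / (2 * T) := by
      rw [norm_div, norm_one, norm_mul, Complex.norm_ofNat, Complex.norm_real, Real.norm_eq_abs,
        abs_of_pos hT0]
    have h4 : ‖∫ t in (-T)..T, (F t - A t)‖ ≤ ε / 4 * |T - (-T)| :=
      intervalIntegral.norm_integral_le_of_norm_le_const (fun t _ => hFA t)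
    rw [norm_mul, h3]
    have h5 : |T - (-T)| = 2 * T := by
      rw [abs_of_pos (by linarith)]
      ring
    rw [h5] at h4
    calc 1 / (2 * T) * ‖∫ t in (-T)..T, (F t - A t)‖ ≤ 1 / (2 * T) * (ε / 4 * (2 * T)) := by
          gcongr
      _ = ε / 4 := by
          field_simp
  have h6 : (1 / (2 * T) : ℂ) * ∫ t in (-T)..T, F t =
      (1 / (2 * T) : ℂ) * (∫ t in (-T)..T, (F t - A t)) + (1 / (2 * T) : ℂ) * ∫ t in (-T)..T, A t := by
    rw [intervalIntegral.integral_sub (hF.intervalIntegrable _ _) (hA.intervalIntegrable _ _)]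
    ring
  rw [h6]
  have e : (1 / (2 * T) : ℂ) * (∫ t in (-T)..T, (F t - A t)) +
      (1 / (2 * T) : ℂ) * (∫ t in (-T)..T, A t) - L =
      (1 / (2 * T) : ℂ) * (∫ t in (-T)..T, (F t - A t)) +
        ((1 / (2 * T) : ℂ) * (∫ t in (-T)..T, A t) - a) + (a - L) := by ring
  rw [e]
  calc _ ≤ ‖(1 / (2 * T) : ℂ) * (∫ t in (-T)..T, (F t - A t))‖ +
        ‖(1 / (2 * T) : ℂ) * (∫ t in (-T)..T, A t) - a‖ + ‖a - L‖ :=
        (norm_add_le _ _).trans (add_le_add (norm_add_le _ _) le_rfl)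
    _ < ε := by linarith

/-- the approximating polynomials -/
noncomputable def Qn (K : ℝ) (n : ℕ) : Polynomial ℂ :=
  Polynomial.X * (Polynomial.C ((Real.log (K + 1) : ℝ) : ℂ) +
    ∑ j ∈ Finset.range (n + 1), Polynomial.C ((-1 : ℂ) ^ (j + 1) / (j : ℂ)) *
      ((Polynomial.X - Polynomial.C (K : ℂ)) * Polynomial.C ((K + 1 : ℂ)⁻¹)) ^ j)

theorem eval_Qn (K : ℝ) (n : ℕ) (w : ℂ) : (Qn K n).eval w =
    w * (((Real.log (K + 1) : ℝ) : ℂ) +
      Complex.logTaylor (n + 1) ((w - (K : ℂ)) * (K + 1 : ℂ)⁻¹)) := by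
  unfold Qn Complex.logTaylor
  simp only [Polynomial.eval_mul, Polynomial.eval_X, Polynomial.eval_add, Polynomial.eval_C,
    Polynomial.eval_finsetSum, Polynomial.eval_pow, Polynomial.eval_sub]
  congr 2
  apply Finset.sum_congr rfl
  intro j _
  ring

theorem approx {K q R : ℝ} (hK : 0 < K) (hq0 : 0 ≤ q) (hq : q < 1) (n : ℕ) {w : ℂ}
    (hw : ‖(w - (K : ℂ)) * (K + 1 : ℂ)⁻¹‖ ≤ q) (hR : ‖w‖ ≤ R) :
    ‖w * Complex.log (1 + w) - (Qn K n).eval w‖ ≤ R * (q ^ (n + 1) * (1 - q)⁻¹) := by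
  set z : ℂ := (w - (K : ℂ)) * (K + 1 : ℂ)⁻¹ with hz
  have hK1 : (K + 1 : ℂ) ≠ 0 := by
    have : ((K + 1 : ℝ) : ℂ) ≠ 0 := by exact_mod_cast (by linarith : K + 1 ≠ 0)
    push_cast at this
    exact this
  have hzlt : ‖z‖ < 1 := lt_of_le_of_lt hw hq
  have h1 : 1 + w = ((K + 1 : ℝ) : ℂ) * (1 + z) := by
    rw [hz]
    push_cast
    field_simp
    ring
  have hne : 1 + z ≠ 0 := by
    intro h
    have h2 : z = -1 := by linear_combination h
    rw [h2, norm_neg, norm_one] at hzlt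
    exact lt_irrefl _ hzlt
  have h2 : Complex.log (1 + w) = ((Real.log (K + 1) : ℝ) : ℂ) + Complex.log (1 + z) := by
    rw [h1, Complex.log_ofReal_mul (by linarith) hne]
  have h3 := Complex.norm_log_sub_logTaylor_le n hzlt
  rw [h2, eval_Qn, ← hz]
  have e : w * (((Real.log (K + 1) : ℝ) : ℂ) + Complex.log (1 + z)) -
      w * (((Real.log (K + 1) : ℝ) : ℂ) + Complex.logTaylor (n + 1) z) =
      w * (Complex.log (1 + z) - Complex.logTaylor (n + 1) z) := by ring
  rw [e, norm_mul]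
  have hR0 : 0 ≤ R := (norm_nonneg w).trans hR
  apply mul_le_mul hR _ (norm_nonneg _) hR0
  refine h3.trans ?_
  have h4 : ‖z‖ ^ (n + 1) ≤ q ^ (n + 1) := pow_le_pow_left₀ (norm_nonneg _) hw _
  have h5 : (1 - ‖z‖)⁻¹ ≤ (1 - q)⁻¹ := by
    apply inv_anti₀ (by linarith)
    linarith
  have h6 : 0 ≤ (1 - ‖z‖)⁻¹ := inv_nonneg.2 (by linarith)
  have h7 : ‖z‖ ^ (n + 1) * (1 - ‖z‖)⁻¹ ≤ q ^ (n + 1) * (1 - q)⁻¹ :=
    mul_le_mul h4 h5 h6 (by positivity)
  have h8 : 0 ≤ q ^ (n + 1) * (1 - q)⁻¹ := by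
    have : 0 ≤ (1 - q)⁻¹ := inv_nonneg.2 (by linarith)
    positivity
  have h9 : (1 : ℝ) ≤ (n : ℝ) + 1 := by
    have : (0 : ℝ) ≤ n := by positivity
    linarith
  calc ‖z‖ ^ (n + 1) * (1 - ‖z‖)⁻¹ / (n + 1) ≤ q ^ (n + 1) * (1 - q)⁻¹ / (n + 1) := by
        gcongr
    _ ≤ q ^ (n + 1) * (1 - q)⁻¹ := div_le_self h8 h9

theorem taskC : TaskC := by
  intro ι s c lam G hlam hG hre
  have hV : (G - fun _ => 1) ∈ V := by
    have e : (G - fun _ => 1) = ∑ i ∈ s, c i • ee (lam i) := by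
      funext t
      rw [Pi.sub_apply, hG t, Finset.sum_apply]
      simp only [Pi.smul_apply, smul_eq_mul, ee]
      ring
    rw [e]
    apply V.sum_mem
    intro i hi
    exact V.smul_mem _ (Submodule.subset_span ⟨lam i, hlam i hi, rfl⟩)
  have hGc : Continuous G := by
    have h1 := (V_mean hV).1.add (continuous_const (y := (1 : ℂ)))
    convert h1 using 1
    funext t
    simp
  set R : ℝ := 1 + ∑ i ∈ s, ‖c i‖ with hRdef
  have hR1 : 1 ≤ R := by
    have : 0 ≤ ∑ i ∈ s, ‖c i‖ := Finset.sum_nonneg fun i _ => norm_nonneg _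
    linarith
  have hGR : ∀ t, ‖G t‖ ≤ R := by
    intro t
    rw [hG t]
    refine (norm_add_le _ _).trans ?_
    rw [norm_one, hRdef]
    gcongr
    refine (norm_sum_le _ _).trans ?_
    apply Finset.sum_le_sum
    intro i _
    rw [norm_mul, mul_comm Complex.I, Complex.norm_exp_ofReal_mul_I, mul_one]
  set K : ℝ := R ^ 2 + 1 with hKdef
  have hK : 0 < K := by positivity
  have hK1 : 0 < K + 1 := by linarith
  set q : ℝ := Real.sqrt (K ^ 2 + R ^ 2) / (K + 1) with hqdef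
  have hq0 : 0 ≤ q := by positivity
  have hq : q < 1 := by
    rw [hqdef, div_lt_one hK1, Real.sqrt_lt' hK1]
    have : R ^ 2 = K - 1 := by rw [hKdef]; ring
    nlinarith
  have key : ∀ w : ℂ, 0 ≤ w.re → ‖w‖ ≤ R → ‖(w - (K : ℂ)) * (K + 1 : ℂ)⁻¹‖ ≤ q := by
    intro w hw1 hw2
    have e1 : ‖(K + 1 : ℂ)⁻¹‖ = (K + 1)⁻¹ := by
      rw [norm_inv]
      congr 1
      have : (K + 1 : ℂ) = ((K + 1 : ℝ) : ℂ) := by push_cast; ring
      rw [this, Complex.norm_real, Real.norm_eq_abs, abs_of_pos hK1]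
    rw [norm_mul, e1, hqdef, div_eq_mul_inv]
    apply mul_le_mul_of_nonneg_right _ (by positivity)
    apply Real.le_sqrt_of_sq_le
    have e2 : ‖w - (K : ℂ)‖ ^ 2 = (w.re - K) ^ 2 + w.im ^ 2 := by
      rw [Complex.sq_norm, Complex.normSq_apply]
      simp
      ring
    have e3 : ‖w‖ ^ 2 = w.re ^ 2 + w.im ^ 2 := by
      rw [Complex.sq_norm, Complex.normSq_apply]
      ring
    have e4 : ‖w‖ ^ 2 ≤ R ^ 2 := pow_le_pow_left₀ (norm_nonneg _) hw2 2
    rw [e2]
    nlinarith [mul_nonneg hK.le hw1]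
  have hFc : Continuous fun t => G t * Complex.log (1 + G t) := by
    apply hGc.mul
    apply Continuous.clog (continuous_const.add hGc)
    intro t
    left
    have := hre t
    simp
    linarith
  apply mean_of_approx hFc
  intro ε hε
  have hlim : Tendsto (fun n : ℕ => R * (q ^ (n + 1) * (1 - q)⁻¹)) atTop (𝓝 0) := by
    have h1 := (tendsto_pow_atTop_nhds_zero_of_lt_one hq0 hq).comp (tendsto_add_atTop_nat 1)
    have h2 := (h1.mul_const ((1 - q)⁻¹)).const_mul R
    simpa using h2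
  obtain ⟨n, hn⟩ := (hlim.eventually_le_const hε).exists
  obtain ⟨hc, hm⟩ := poly_mean hV (Qn K n)
  refine ⟨_, _, hc, hm, ?_, ?_⟩
  · have h1 := approx (R := R) (w := 1) hK hq0 hq n
      (key 1 (by simp) (by rw [norm_one]; exact hR1)) (by rw [norm_one]; exact hR1)
    have e : (1 : ℂ) * Complex.log (1 + 1) = ((Real.log 2 : ℝ) : ℂ) := by
      rw [one_mul, one_add_one_eq_two, Complex.ofReal_log (by norm_num)]
      norm_num
    rw [e] at h1
    rw [norm_sub_rev]
    exact h1.trans hn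
  · intro t
    exact (approx hK hq0 hq n (key (G t) (hre t) (hGR t)) (hGR t)).trans hn

end Pool.Agent.H779R5.PS
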